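import Pool.Agent.ARL.Main
import Pool.Agent.ARL.ZSU
import Pool.Agent.ARL.EUP
import Pool.Agent.ARL.EUL
import Pool.Agent.ARL.FIB
import Pool.Agent.ARL.SPL
import Pool.Agent.ARL.CMP
import Pool.Agent.ARL.CHE
import Pool.Agent.ARL.TOT
import Pool.Agent.ARL.SIE
import Pool.Agent.ARL.INT
import Pool.Agent.ARL.DIA
import Pool.Agent.ARL.EIS
import Pool.Agent.ARL.NSQ
import Pool.Agent.ARL.CHR
import Pool.Agent.ARL.CH1
import Pool.Agent.ARL.CHI
import Pool.Agent.ARL.VAL
import Pool.Agent.ARL.RAM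
import Pool.Agent.ARL.TRA
import Pool.Agent.ARL.MAX
import Pool.Agent.ARL.DET
import Pool.Agent.ARL.DEN
import Pool.Agent.ARL.RAD
import Pool.Agent.ARL.COR

/-!
# MP_5c2e18_nt: for `100 %` of all rational `c` almost all levels of the tree of `x ^ 2 + c` are
maximal
-/

namespace Pool.Agent.Results.MP_5c2e18_nt.AlmostAllLevels

open Filter Topology Pool.Agent.ARL
open Pool.Agent.Arb (ht)

open scoped Classical in
/-- (1) For every `R`, for `100 %` of all `c ∈ ℚ`, `[K_n : K_{n-1}] = 2 ^ 2 ^ (n - 1)` for all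
levels `n ≥ 1` with `n / rad n ≤ R`. (2) The bound `R` may tend to infinity with the height of
`c`. (3) For every `ε > 0`, for `100 %` of all `c ∈ ℚ`, for every `X` the inequality
`[K_N : ℚ] ≥ |Aut(T_N)| ^ (1 - ε)` holds for at least `(1 - ε) X` of the levels `N ≤ X`. -/
theorem result :
    (∀ R : ℕ, DensityOne (fun c => ∀ n, 1 ≤ n → n ≤ R * rad n → MaxLevel c n)) ∧
    (∃ g : ℕ → ℕ, Tendsto g atTop atTop ∧
      DensityOne (fun c => ∀ n, 1 ≤ n → n ≤ g (ht c) * rad n → MaxLevel c n)) ∧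
    (∀ ε : ℝ, 0 < ε → DensityOne (fun c => ∀ X : ℕ,
      (1 - ε) * X ≤ (((Finset.Icc 1 X).filter (fun N : ℕ =>
        (2 : ℝ) ^ ((1 - ε) * (2 ^ N - 1)) ≤ (Module.finrank ℚ (KK c N) : ℝ))).card : ℝ))) := by
  have hCMP := cmp_proof zsu_proof (eup_proof zsu_proof) (eul_proof zsu_proof) spl_proof
  have hCHE := che_proof fib_proof hCMP
  exact main_proof
    (det_proof chr_proof ch1_proof chi_proof val_proof ram_proof tra_proof max_proof)
    (den_proof hCHE (sie_proof tot_proof) int_proof eis_proof nsq_proof)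
    int_proof dia_proof (cor_proof rad_proof)

end Pool.Agent.Results.MP_5c2e18_nt.AlmostAllLevels
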