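import Pool.Agent.Arb.Main
import Pool.Agent.Arb.Conv
import Pool.Agent.Arb.ClsAE
import Pool.Agent.Arb.ClsB1
import Pool.Agent.Arb.ClsB2
import Pool.Agent.Arb.ClsA3
import Pool.Agent.Arb.ClsC1
import Pool.Agent.Arb.ClsC2
import Pool.Agent.Arb.Val
import Pool.Agent.Arb.Gal
import Pool.Agent.Arb.Thin
import Pool.Agent.Arb.DensA
import Pool.Agent.Arb.DensB
import Pool.Agent.Arb.DensC

/-!
# MP_5c2e18_nt: surjective arboreal representations of `x ^ 2 + c` for `7/12` of all rational `c`
-/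

namespace Pool.Agent.Results.MP_5c2e18_nt.FullImage

open Filter Topology Pool.Agent.Arb

/-- On the explicit set `Good` of natural density `7/12` the exceptional set `E` is exactly the
union of three conics, hence thin; in particular the lower density of the rationals `c` with
`G(φ_c) = Aut(T)` is at least `7/12`. -/
theorem result :
    (∀ c : ℚ, Good c → (c ∈ Exceptional ↔
      IsSquare (-c) ∨ IsSquare (-(c + 1)) ∨ IsSquare (c * (c + 1)))) ∧
    IsThin {c : ℚ | Good c ∧ c ∈ Exceptional} ∧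
    Tendsto (fun B : ℕ => (cnt Good B : ℝ) / (cnt (fun _ => True) B : ℝ)) atTop (𝓝 (7 / 12)) ∧
    ∀ ε : ℝ, 0 < ε → ∀ᶠ B : ℕ in atTop,
      7 / 12 - ε ≤ (cnt (fun c => c ∉ Exceptional) B : ℝ) / (cnt (fun _ => True) B : ℝ) := by
  have hP := pairs_proof
  obtain ⟨h1, h2, h3, h4⟩ := main_of gal_proof val_proof clsAE_proof clsB4_proof clsB1_proof
    clsB2_proof clsA3_proof clsC1_proof clsC2_proof thin_proof (DensB_proof hP) (DensC_proof hP)
  refine ⟨fun c hc => ⟨fun he => ?_, conv c⟩, h2, h3, h4⟩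
  by_contra hcon
  simp only [not_or] at hcon
  exact h1 c hc hcon.1 hcon.2.1 hcon.2.2 he

end Pool.Agent.Results.MP_5c2e18_nt.FullImage
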